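import Pool.Agent.helper44.MDG.Spec

set_option autoImplicit false

namespace Pool.Agent.helper44.MDG

theorem CPP_mono {r : ℕ} {s : ℕ → ℕ} (h : ∀ i < r, s i + 7 ≤ s (i + 1)) (i d : ℕ) (hd : i + d ≤ r) :
    s i ≤ s (i + d) := by
  induction d with
  | zero => exact le_refl _
  | succ d ih =>
    have h1 := ih (by omega)
    have h2 := h (i + d) (by omega)
    have h3 : i + (d + 1) = i + d + 1 := by omega
    rw [h3]
    omega

theorem CPP_mono' {r : ℕ} {s : ℕ → ℕ} (h : ∀ i < r, s i + 7 ≤ s (i + 1)) (i j : ℕ) (hij : i ≤ j) (hj : j ≤ r) :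
    s i ≤ s j := by
  have h1 := CPP_mono h i (j - i) (by omega)
  have h2 : i + (j - i) = j := by omega
  rwa [h2] at h1

theorem CPP_par (e q : Bool) (i j : ℕ) (hi : col e i = q) (hj : col e j = q) : i % 2 = j % 2 := by
  unfold col at hi hj
  by_cases h1 : i % 2 = 0 <;> by_cases h2 : j % 2 = 0
  · omega
  · rw [if_pos h1] at hi
    rw [if_neg h2] at hj
    cases e <;> cases q <;> simp_all
  · rw [if_neg h1] at hi
    rw [if_pos h2] at hj
    cases e <;> cases q <;> simp_all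
  · omega

theorem CPP_find {s : ℕ → ℕ} (h0 : s 0 = 0) (k v : ℕ) (hv : v < s k) : ∃ i < k, s i ≤ v ∧ v < s (i + 1) := by
  induction k with
  | zero => omega
  | succ k ih =>
    by_cases h : v < s k
    · obtain ⟨i, hi, h1⟩ := ih h
      exact ⟨i, by omega, h1⟩
    · exact ⟨k, by omega, by omega, hv⟩

/-- The arithmetic facts of two runs of the same colour. -/
theorem CPP_facts {n r : ℕ} {s : ℕ → ℕ} {e : Bool} {c : Fin n → Bool} (h : CRuns n r s e c) (q : Bool) (i i' : ℕ)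
    (hi : i < r) (hi' : i' < r) (hc : col e i = q) (hc' : col e i' = q) :
    (i < i' → s (i + 1) + 7 ≤ s i') ∧ (s i = 0 ∨ 7 ≤ s i) ∧ (s i ≤ 1 → s (i' + 1) + 7 ≤ n) ∧
      s i + 7 ≤ s (i + 1) ∧ s (i + 1) ≤ n := by
  have hpar := CPP_par e q i i' hc hc'
  have heven := h.even
  have h7 : 0 < i → 7 ≤ s i := by
    intro h0
    have h1 := CPP_mono' h.len 1 i h0 (by omega)
    have h2 : s 0 + 7 ≤ s 1 := h.len 0 h.pos
    omega
  refine ⟨?_, ?_, ?_, h.len i hi, ?_⟩
  · intro hlt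
    have h1 := CPP_mono' h.len (i + 2) i' (by omega) (by omega)
    have h2 := h.len (i + 1) (by omega)
    have h3 : i + 1 + 1 = i + 2 := by omega
    rw [h3] at h2
    omega
  · rcases Nat.eq_zero_or_pos i with h0 | h0
    · left
      rw [h0]
      exact h.s0
    · right
      exact h7 h0
  · intro hs
    have hi0 : i = 0 := by
      rcases Nat.eq_zero_or_pos i with h0 | h0
      · exact h0
      · have := h7 h0
        omega
    have h1 := CPP_mono' h.len (i' + 2) r (by omega) le_rfl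
    have h2 := h.len (i' + 1) (by omega)
    have h3 : i' + 1 + 1 = i' + 2 := by omega
    rw [h3] at h2
    have h4 := h.sr
    omega
  · have h1 := CPP_mono' h.len (i + 1) r (by omega) le_rfl
    have h4 := h.sr
    omega

/-- The value of the vertex with the number `t` minus one, modulo `n`. -/
def CPP_w (n t : ℕ) : ℕ := if t = 0 then n - 1 else if t = n + 1 then 0 else t - 1

/-- The relation between the number `t` and the vertex `x`. -/
def CPP_Q (n t x : ℕ) : Prop := x + 1 = t ∨ (t = 0 ∧ x + 1 = n) ∨ (t = n + 1 ∧ x = 0)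

theorem CPP_key {n r : ℕ} {s : ℕ → ℕ} {e : Bool} {c : Fin n → Bool} (h : CRuns n r s e c) (q : Bool) (i i' j v x : ℕ)
    (hi : i < r) (hi' : i' < r) (hc : col e i = q) (hc' : col e i' = q) (hj : 3 * j ≤ s (i + 1) - s i + 1)
    (hv1 : s i' ≤ v) (hv2 : v < s (i' + 1)) (hQ : CPP_Q n (s i + 3 * j) x) (hx : x < n)
    (hN : x = v ∨ x + 1 = v ∨ v + 1 = x ∨ (x = 0 ∧ v + 1 = n) ∨ (v = 0 ∧ x + 1 = n)) :
    i = i' ∧ v ≤ s i + 3 * j ∧ s i + 3 * j ≤ v + 2 := by
  obtain ⟨a1, a2, a3, a4, a5⟩ := CPP_facts h q i i' hi hi' hc hc'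
  obtain ⟨b1, b2, b3, b4, b5⟩ := CPP_facts h q i' i hi' hi hc' hc
  obtain ⟨c1, c2, c3, c4, c5⟩ := CPP_facts h q i i hi hi hc hc
  obtain ⟨d1, d2, d3, d4, d5⟩ := CPP_facts h q i' i' hi' hi' hc' hc'
  unfold CPP_Q at hQ
  have hii : i = i' := by
    rcases Nat.lt_trichotomy i i' with hl | hl | hl
    · have f := a1 hl
      exfalso
      omega
    · exact hl
    · have f := b1 hl
      exfalso
      omega
  subst hii
  omega

theorem CPP : CPP_stmt := by
  intro n r s e p c h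
  have hn : 0 < n := by
    obtain ⟨a1, a2, a3, a4, a5⟩ := CPP_facts h (col e 0) 0 0 h.pos h.pos rfl rfl
    omega
  let F : (Σ _ : ℕ, ℕ) → Fin n := fun z => ⟨CPP_w n (s z.1 + 3 * z.2) % n, Nat.mod_lt _ hn⟩
  let D : Finset (Σ _ : ℕ, ℕ) := ((Finset.range r).filter (fun i => col e i = !p)).sigma
    (fun i => Finset.range ((s (i + 1) - s i + 2 + 2) / 3))
  have hD : ∀ z ∈ D, z.1 < r ∧ col e z.1 = (!p) ∧ 3 * z.2 ≤ s (z.1 + 1) - s z.1 + 1 := by
    intro z hz
    simp only [D, Finset.mem_sigma, Finset.mem_filter, Finset.mem_range] at hz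
    exact ⟨hz.1.1, hz.1.2, by omega⟩
  have hF : ∀ z ∈ D, CPP_Q n (s z.1 + 3 * z.2) (F z).val := by
    intro z hz
    obtain ⟨h1, h2, h3⟩ := hD z hz
    obtain ⟨a1, a2, a3, a4, a5⟩ := CPP_facts h (!p) z.1 z.1 h1 h1 h2 h2
    have hw : CPP_w n (s z.1 + 3 * z.2) < n := by
      unfold CPP_w
      split_ifs <;> omega
    have hv : (F z).val = CPP_w n (s z.1 + 3 * z.2) := Nat.mod_eq_of_lt hw
    rw [hv]
    unfold CPP_Q CPP_w
    split_ifs <;> omega
  have hinj : Set.InjOn F (D : Set (Σ _ : ℕ, ℕ)) := by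
    intro z hz z' hz' hzz
    have hz1 := Finset.mem_coe.mp hz
    have hz2 := Finset.mem_coe.mp hz'
    obtain ⟨h1, h2, h3⟩ := hD z hz1
    obtain ⟨h1', h2', h3'⟩ := hD z' hz2
    have q1 := hF z hz1
    have q2 := hF z' hz2
    rw [← hzz] at q2
    have hx := (F z).2
    obtain ⟨a1, a2, a3, a4, a5⟩ := CPP_facts h (!p) z.1 z'.1 h1 h1' h2 h2'
    obtain ⟨b1, b2, b3, b4, b5⟩ := CPP_facts h (!p) z'.1 z.1 h1' h1 h2' h2
    unfold CPP_Q at q1 q2
    have hii : z.1 = z'.1 := by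
      rcases Nat.lt_trichotomy z.1 z'.1 with hl | hl | hl
      · have f := a1 hl
        exfalso
        omega
      · exact hl
      · have f := b1 hl
        exfalso
        omega
    have hjj : z.2 = z'.2 := by
      rw [hii] at q1 h3 a3 a4
      omega
    obtain ⟨i, j⟩ := z
    obtain ⟨i', j'⟩ := z'
    dsimp only at hii hjj
    subst hii
    subst hjj
    rfl
  refine ⟨D.image F, ⟨?_, ?_⟩, ?_⟩
  · intro x hx
    obtain ⟨z, hz, rfl⟩ := Finset.mem_image.mp hx
    obtain ⟨h1, h2, h3⟩ := hD z hz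
    have q1 := hF z hz
    have hx := (F z).2
    obtain ⟨a1, a2, a3, a4, a5⟩ := CPP_facts h (!p) z.1 z.1 h1 h1 h2 h2
    obtain ⟨v, hv⟩ : ∃ v : ℕ, v = max (s z.1) (min (s z.1 + 3 * z.2 - 1) (s (z.1 + 1) - 1)) := ⟨_, rfl⟩
    have hv1 : s z.1 ≤ v := by omega
    have hv2 : v < s (z.1 + 1) := by omega
    refine ⟨⟨v, by omega⟩, ?_, ?_⟩
    · rw [h.colour z.1 h1 ⟨v, by omega⟩ hv1 hv2, h2]
    · unfold NC
      rw [Finset.mem_filter]
      refine ⟨Finset.mem_univ _, ?_⟩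
      unfold CPP_Q at q1
      dsimp only
      omega
  · intro v hv x hx y hy hxv hyv
    obtain ⟨z, hz, rfl⟩ := Finset.mem_image.mp hx
    obtain ⟨z', hz', rfl⟩ := Finset.mem_image.mp hy
    obtain ⟨h1, h2, h3⟩ := hD z hz
    obtain ⟨h1', h2', h3'⟩ := hD z' hz'
    have q1 := hF z hz
    have q2 := hF z' hz'
    unfold NC at hxv hyv
    rw [Finset.mem_filter] at hxv hyv
    obtain ⟨i, hi, hi1, hi2⟩ := CPP_find h.s0 r v.val (by rw [h.sr]; exact v.2)
    have hci : col e i = (!p) := by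
      rw [← h.colour i hi v hi1 hi2]
      exact hv
    obtain ⟨k1, k2, k3⟩ := CPP_key h (!p) z.1 i z.2 v.val (F z).val h1 hi h2 hci h3 hi1 hi2 q1 (F z).2 hxv.2
    obtain ⟨k1', k2', k3'⟩ := CPP_key h (!p) z'.1 i z'.2 v.val (F z').val h1' hi h2' hci h3' hi1 hi2 q2 (F z').2 hyv.2
    have hii : z.1 = z'.1 := by omega
    have hjj : z.2 = z'.2 := by
      rw [hii] at k2 k3
      omega
    obtain ⟨a, b⟩ := z
    obtain ⟨a', b'⟩ := z'
    dsimp only at hii hjj
    subst hii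
    subst hjj
    rfl
  · rw [Finset.card_image_of_injOn hinj]
    simp only [D, Finset.card_sigma, Finset.card_range]
    exact le_refl _

end Pool.Agent.helper44.MDG
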